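import Mathlib

set_option autoImplicit false

/-!
# Geometric sums (PC-GEOM, GEOM2, GEOM3) for project PC of helper811 (helper458)
-/

namespace Pool.Agent.Y458.PC

open Complex Metric Set Filter Topology

theorem log_bd {θ : ℂ} (h : ‖θ‖ ≤ 1 / 2) : ‖Complex.log (1 - θ) + θ‖ ≤ ‖θ‖ ^ 2 := by
  have h1 : ‖-θ‖ < 1 := by rw [norm_neg]; linarith
  have h2 := Complex.norm_log_one_add_sub_self_le h1
  rw [norm_neg] at h2
  have e1 : Complex.log (1 + -θ) - -θ = Complex.log (1 - θ) + θ := by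
    rw [sub_neg_eq_add, ← sub_eq_add_neg]
  rw [e1] at h2
  have h3 : (1 - ‖θ‖)⁻¹ ≤ 2 := by
    rw [inv_le_comm₀ (by linarith) (by norm_num)]
    linarith
  nlinarith [sq_nonneg ‖θ‖, mul_le_mul_of_nonneg_left h3 (sq_nonneg ‖θ‖)]

/-- geometric sums in terms of the exponential function -/
theorem gs_eq {θ : ℂ} (h0 : θ ≠ 0) (h : ‖θ‖ ≤ 1 / 2) (k : ℕ) :
    ∑ i ∈ Finset.range k, (1 - θ) ^ i = (1 - exp (-(-(k * Complex.log (1 - θ))))) / θ := by
  have h1 : (1 - θ) ≠ 0 := by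
    intro h2
    have h3 : θ = 1 := by linear_combination -h2
    rw [h3, norm_one] at h
    norm_num at h
  have h2 : exp (-(-(k * Complex.log (1 - θ)))) = (1 - θ) ^ k := by
    rw [neg_neg, Complex.exp_nat_mul, Complex.exp_log h1]
  rw [h2, eq_div_iff h0]
  have h4 := geom_sum_mul (1 - θ) k
  linear_combination -h4

/-- distance of the exponent from `k θ` -/
theorem w_near {θ : ℂ} (h : ‖θ‖ ≤ 1 / 2) (k : ℕ) :
    ‖-(k * Complex.log (1 - θ)) - k * θ‖ ≤ k * ‖θ‖ ^ 2 := by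
  have e1 : -(k * Complex.log (1 - θ)) - k * θ = -((k : ℂ) * (Complex.log (1 - θ) + θ)) := by ring
  rw [e1, norm_neg, norm_mul, Complex.norm_natCast]
  exact mul_le_mul_of_nonneg_left (log_bd h) (Nat.cast_nonneg k)

theorem w_low {θ : ℂ} (h : ‖θ‖ ≤ 1 / 2) (k : ℕ) :
    k * ‖θ‖ / 2 ≤ ‖-((k : ℂ) * Complex.log (1 - θ))‖ := by
  have h1 := w_near h k
  have h2 : ‖(k : ℂ) * θ‖ = k * ‖θ‖ := by rw [norm_mul, Complex.norm_natCast]
  have h3 := norm_sub_norm_le ((k : ℂ) * θ) (-(k * Complex.log (1 - θ)))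
  rw [norm_sub_rev, h2] at h3
  have h4 : (k : ℝ) * ‖θ‖ ^ 2 ≤ k * (‖θ‖ * (1 / 2)) := by
    apply mul_le_mul_of_nonneg_left _ (Nat.cast_nonneg k)
    rw [sq]
    exact mul_le_mul_of_nonneg_left h (norm_nonneg _)
  have h5 : ‖(k : ℂ) * θ - -(↑k * Complex.log (1 - θ))‖ ≤ k * ‖θ‖ ^ 2 := by
    rw [norm_sub_rev]; exact h1
  have h6 : ‖-((k : ℂ) * Complex.log (1 - θ)) - k * θ‖ = ‖(k : ℂ) * θ - -(↑k * Complex.log (1 - θ))‖ :=
    norm_sub_rev _ _
  nlinarith

/-- `|1 - exp (-w)|` is at least `c |w|` away from the other zeros -/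
theorem exp_low {R : ℝ} (hR : R < 2 * Real.pi) :
    ∃ c : ℝ, 0 < c ∧ ∀ w : ℂ, ‖w‖ ≤ R → c * ‖w‖ ≤ ‖1 - exp (-w)‖ := by
  rcases lt_or_ge R 0 with hR0 | hR0
  · exact ⟨1, one_pos, fun w hw => absurd (norm_nonneg w) (by linarith)⟩
  set f : ℂ → ℂ := fun w => 1 - exp (-w) with hf
  have hfd : Differentiable ℂ f := by
    rw [hf]; fun_prop
  have hf0 : f 0 = 0 := by simp [hf]
  have hd0 : deriv f 0 = 1 := by
    have : HasDerivAt f (-(exp (-0) * (-1))) 0 := by
      have h1 : HasDerivAt (fun w : ℂ => exp (-w)) (exp (-0) * (-1)) 0 :=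
        (hasDerivAt_neg (0 : ℂ)).cexp
      simpa using h1.const_sub 1
    rw [this.deriv]
    simp
  have hcont : Continuous (dslope f 0) := by
    rw [continuous_iff_continuousAt]
    intro w
    rcases eq_or_ne w 0 with rfl | hw
    · exact continuousAt_dslope_same.2 (hfd 0)
    · exact (continuousAt_dslope_of_ne hw).2 (hfd w).continuousAt
  have hne : ∀ w ∈ closedBall (0 : ℂ) R, dslope f 0 w ≠ 0 := by
    intro w hw
    rcases eq_or_ne w 0 with rfl | hw0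
    · rw [dslope_same, hd0]; exact one_ne_zero
    · rw [dslope_of_ne _ hw0, slope_def_field, hf0, sub_zero, sub_zero]
      apply div_ne_zero _ hw0
      intro h1
      have h2 : exp (-w) = 1 := by
        have : (1 : ℂ) - exp (-w) = 0 := h1
        linear_combination -this
      rw [Complex.exp_eq_one_iff] at h2
      obtain ⟨n, hn⟩ := h2
      have hn0 : n ≠ 0 := by
        rintro rfl
        apply hw0
        simpa using hn
      have h3 : ‖w‖ = |(n : ℝ)| * (2 * Real.pi) := by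
        rw [← norm_neg, hn]
        simp [abs_of_pos Real.pi_pos]
      have h4 : (1 : ℝ) ≤ |(n : ℝ)| := by
        have := Int.one_le_abs hn0
        exact_mod_cast this
      have h5 : ‖w‖ ≤ R := by simpa using hw
      have h6 : 2 * Real.pi ≤ |(n : ℝ)| * (2 * Real.pi) := by
        have := Real.pi_pos
        nlinarith
      linarith
  obtain ⟨w₀, hw₀, hmin⟩ := (isCompact_closedBall (0 : ℂ) R).exists_isMinOn
    ⟨0, by simpa using hR0⟩ (hcont.norm.continuousOn)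
  refine ⟨‖dslope f 0 w₀‖, norm_pos_iff.2 (hne w₀ hw₀), fun w hw => ?_⟩
  have h1 : ‖dslope f 0 w₀‖ ≤ ‖dslope f 0 w‖ := hmin (by simpa using hw)
  have h2 : ‖1 - exp (-w)‖ = ‖w‖ * ‖dslope f 0 w‖ := by
    have h3 := sub_smul_dslope f 0 w
    rw [hf0, sub_zero, sub_zero, smul_eq_mul] at h3
    rw [← norm_mul, h3]
  rw [h2, mul_comm]
  exact mul_le_mul_of_nonneg_left h1 (norm_nonneg _)

theorem pi3 : (3.14 : ℝ) < Real.pi := Real.pi_gt_d2
theorem pi4 : Real.pi < (3.15 : ℝ) := Real.pi_lt_d2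

/-- PC-GEOM -/
theorem geom : ∀ δ : ℝ, 0 < δ → ∃ c₁ r₁ : ℝ, 0 < c₁ ∧ 0 < r₁ ∧ ∀ θ : ℂ, ‖θ‖ ≤ r₁ → ∀ k : ℕ,
    k * ‖θ‖ ≤ 2 * Real.pi - δ → c₁ * k ≤ ‖∑ i ∈ Finset.range k, (1 - θ) ^ i‖ := by
  intro δ hδ
  obtain ⟨c, hc, hlow⟩ := exp_low (R := 2 * Real.pi - δ / 2) (by linarith)
  refine ⟨min (c / 2) 1, min (1 / 2) (δ / 16), by positivity, by positivity, ?_⟩
  intro θ hθ k hk
  have h1 : ‖θ‖ ≤ 1 / 2 := hθ.trans (min_le_left _ _)
  have h2 : ‖θ‖ ≤ δ / 16 := hθ.trans (min_le_right _ _)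
  rcases eq_or_ne θ 0 with rfl | h0
  · simp only [sub_zero, one_pow, Finset.sum_const, Finset.card_range, nsmul_eq_mul, mul_one,
      Complex.norm_natCast]
    have := min_le_right (c / 2) 1
    have hk0 : (0 : ℝ) ≤ k := Nat.cast_nonneg k
    nlinarith
  · rw [gs_eq h0 h1, norm_div, le_div_iff₀ (norm_pos_iff.2 h0)]
    have h3 := w_near h1 k
    have h4 := w_low h1 k
    set w : ℂ := -((k : ℂ) * Complex.log (1 - θ)) with hw
    have h5 : ‖w‖ ≤ 2 * Real.pi - δ / 2 := by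
      have h6 : ‖w‖ ≤ ‖(k : ℂ) * θ‖ + ‖w - k * θ‖ := by
        have := norm_add_le ((k : ℂ) * θ) (w - k * θ)
        simpa using this
      rw [norm_mul, Complex.norm_natCast] at h6
      have h7 : (k : ℝ) * ‖θ‖ ^ 2 ≤ (2 * Real.pi - δ) * (δ / 16) := by
        have : (k : ℝ) * ‖θ‖ ^ 2 = (k * ‖θ‖) * ‖θ‖ := by ring
        rw [this]
        exact mul_le_mul hk h2 (norm_nonneg _) ((by positivity : (0 : ℝ) ≤ k * ‖θ‖).trans hk)
      have := pi4
      nlinarith
    have h6 := hlow w h5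
    have h7 := min_le_left (c / 2) 1
    have h8 : (0 : ℝ) ≤ k * ‖θ‖ := by positivity
    calc min (c / 2) 1 * k * ‖θ‖ = min (c / 2) 1 * (k * ‖θ‖) := by ring
      _ ≤ c / 2 * (k * ‖θ‖) := mul_le_mul_of_nonneg_right h7 h8
      _ = c * (k * ‖θ‖ / 2) := by ring
      _ ≤ c * ‖w‖ := mul_le_mul_of_nonneg_left h4 hc.le
      _ ≤ _ := h6

/-- periodicity -/
theorem exp_shift (w : ℂ) : exp (-w) = exp (-(w - 2 * Real.pi * I)) := by
  have : -(w - 2 * Real.pi * I) = -w + 2 * Real.pi * I := by ring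
  rw [this, Complex.exp_add, Complex.exp_two_pi_mul_I, mul_one]

theorem norm_le_reim (z : ℂ) : ‖z‖ ≤ |z.re| + |z.im| := Complex.norm_le_abs_re_add_abs_im z

/-- PC-GEOM3 -/
theorem geom3 : ∀ κ : ℝ, 0 < κ → κ < 1 / 2 → ∃ n₁ : ℕ, ∀ n : ℕ, n₁ ≤ n → ∀ x : ℂ,
    x = ((2 * Real.pi - κ : ℝ) : ℂ) * I →
      ‖∑ i ∈ Finset.range n, (1 - x / n) ^ i‖ ≤ κ / 3 * n := by
  intro κ hκ hκ2
  have hp3 := pi3
  have hp4 := pi4
  obtain ⟨n₁, hn₁⟩ := exists_nat_ge (810 / κ)
  refine ⟨n₁, ?_⟩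
  intro n hn x hx
  have hnr : 810 / κ ≤ (n : ℝ) := hn₁.trans (by exact_mod_cast hn)
  have hnκ : 810 ≤ n * κ := by
    rw [div_le_iff₀ hκ] at hnr
    exact hnr
  have hn0 : (0 : ℝ) < n := by
    by_contra h
    have : (n : ℝ) = 0 := le_antisymm (not_lt.1 h) (Nat.cast_nonneg n)
    rw [this] at hnκ
    norm_num at hnκ
  have hn1 : (1620 : ℝ) ≤ n := by nlinarith
  have hxn : ‖x‖ = 2 * Real.pi - κ := by
    rw [hx, norm_mul, Complex.norm_I, mul_one, Complex.norm_real, Real.norm_eq_abs,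
      abs_of_pos (by linarith)]
  have hx9 : ‖x‖ ≤ 9 := by rw [hxn]; linarith
  have hθn : ‖x / n‖ = ‖x‖ / n := by rw [norm_div, Complex.norm_natCast]
  have hθ : ‖x / n‖ ≤ 1 / 2 := by
    rw [hθn, div_le_iff₀ hn0]; linarith
  have hx0 : x ≠ 0 := by
    rw [← norm_pos_iff, hxn]; linarith
  have hnC : (n : ℂ) ≠ 0 := by exact_mod_cast hn0.ne'
  have hθ0 : x / n ≠ 0 := div_ne_zero hx0 hnC
  rw [gs_eq hθ0 hθ, norm_div, hθn]
  have h3 := w_near hθ n
  have e3 : (n : ℂ) * (x / n) = x := by field_simp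
  rw [e3] at h3
  set w : ℂ := -((n : ℂ) * Complex.log (1 - x / n)) with hw
  have h4 : ‖w - x‖ ≤ κ / 10 := by
    refine h3.trans ?_
    rw [hθn, div_pow]
    have : (n : ℝ) * (‖x‖ ^ 2 / n ^ 2) = ‖x‖ ^ 2 / n := by field_simp
    rw [this, div_le_iff₀ hn0]
    nlinarith [norm_nonneg x]
  have h5 : ‖w - 2 * Real.pi * I‖ ≤ 11 / 10 * κ := by
    have e5 : w - 2 * Real.pi * I = (w - x) + (x - 2 * Real.pi * I) := by ring
    have e6 : x - 2 * Real.pi * I = ((-κ : ℝ) : ℂ) * I := by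
      rw [hx]; push_cast; ring
    have e7 : ‖x - 2 * Real.pi * I‖ = κ := by
      rw [e6, norm_mul, Complex.norm_I, mul_one, Complex.norm_real, Real.norm_eq_abs, abs_neg,
        abs_of_pos hκ]
    rw [e5]
    refine (norm_add_le _ _).trans ?_
    rw [e7]
    linarith
  rw [exp_shift w]
  set v : ℂ := w - 2 * Real.pi * I with hv
  have h6 : ‖1 - exp (-v)‖ ≤ 341 / 200 * κ := by
    have h7 : ‖exp (-v) - 1 - (-v)‖ ≤ ‖-v‖ ^ 2 :=
      Complex.norm_exp_sub_one_sub_id_le (by rw [norm_neg]; linarith)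
    rw [norm_neg] at h7
    have e8 : (1 : ℂ) - exp (-v) = v - (exp (-v) - 1 - (-v)) := by ring
    rw [e8]
    refine (norm_sub_le _ _).trans ?_
    nlinarith [norm_nonneg v]
  rw [div_le_iff₀ (by rw [hxn]; apply div_pos (by linarith) hn0), hxn]
  have e9 : κ / 3 * n * ((2 * Real.pi - κ) / n) = κ / 3 * (2 * Real.pi - κ) := by field_simp
  rw [e9]
  nlinarith

/-- PC-GEOM2 in coordinates -/
theorem geom2 : ∀ δ : ℝ, 0 < δ → δ < 1 → ∃ (c₁ C₁ : ℝ) (n₁ : ℕ), 0 < c₁ ∧ 0 < C₁ ∧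
    ∀ n : ℕ, n₁ ≤ n → ∀ x : ℂ, |x.re| ≤ δ → |x.im - 2 * Real.pi| ≤ δ →
      (|x.re| = δ ∨ |x.im - 2 * Real.pi| = δ) →
    (∀ k : ℕ, 2 * k ≤ n → c₁ * k ≤ ‖∑ i ∈ Finset.range k, (1 - x / n) ^ i‖) ∧
    (∀ k : ℕ, n ≤ 2 * k → k ≤ n → C₁ ≤ n * ‖x - ((2 * Real.pi + δ : ℝ) : ℂ) * I‖ →
      c₁ * n * ‖x - ((2 * Real.pi + δ : ℝ) : ℂ) * I‖ ≤ ‖∑ i ∈ Finset.range k, (1 - x / n) ^ i‖) ∧
    c₁ * n ≤ ‖∑ i ∈ Finset.range n, (1 - x / n) ^ i‖ := by
  intro δ hδ hδ1
  have hp3 := pi3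
  have hp4 := pi4
  obtain ⟨c, hc, hlow⟩ := exp_low (R := 6) (by linarith)
  obtain ⟨n₁, hn₁⟩ := exists_nat_ge (1620 / δ)
  refine ⟨c * δ / 120, 972, n₁, by positivity, by norm_num, ?_⟩
  intro n hn x hre him hor
  have hnr : 1620 / δ ≤ (n : ℝ) := hn₁.trans (by exact_mod_cast hn)
  have hnδ : 1620 ≤ n * δ := by
    rw [div_le_iff₀ hδ] at hnr
    exact hnr
  have hn0 : (0 : ℝ) < n := by
    by_contra h
    have : (n : ℝ) = 0 := le_antisymm (not_lt.1 h) (Nat.cast_nonneg n)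
    rw [this] at hnδ
    norm_num at hnδ
  have hn1 : (1620 : ℝ) ≤ n := by nlinarith
  have him' := abs_le.1 him
  have hx9 : ‖x‖ ≤ 2 * Real.pi + 2 := by
    have h1 := norm_le_reim x
    have h2 : |x.im| ≤ 2 * Real.pi + 1 := by
      rw [abs_le]; constructor <;> linarith
    linarith
  have hx1 : 5 ≤ ‖x‖ := by
    have h1 := Complex.abs_im_le_norm x
    have h2 := le_abs_self x.im
    linarith
  have hx0 : x ≠ 0 := by
    rw [← norm_pos_iff]; linarith
  have hnC : (n : ℂ) ≠ 0 := by exact_mod_cast hn0.ne'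
  have hθn : ‖x / n‖ = ‖x‖ / n := by rw [norm_div, Complex.norm_natCast]
  have hθ : ‖x / n‖ ≤ 1 / 2 := by
    rw [hθn, div_le_iff₀ hn0]; linarith
  have hθ0 : x / n ≠ 0 := div_ne_zero hx0 hnC
  -- distance of the exponent
  have hkey : ∀ k : ℕ, k ≤ n → ‖-((k : ℂ) * Complex.log (1 - x / n)) - k * (x / n)‖ ≤ 81 / n := by
    intro k hk
    have hkr : (k : ℝ) ≤ n := by exact_mod_cast hk
    refine (w_near hθ k).trans ?_
    rw [hθn, div_pow, mul_div_assoc', div_le_div_iff₀ (by positivity) hn0]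
    have h2 : ‖x‖ ^ 2 ≤ 81 := by nlinarith [norm_nonneg x]
    have h3 : (k : ℝ) * ‖x‖ ^ 2 ≤ n * 81 :=
      mul_le_mul hkr h2 (by positivity) hn0.le
    nlinarith
  have h81 : 81 / (n : ℝ) ≤ δ / 20 := by
    rw [div_le_iff₀ hn0]; linarith
  have hδ2 : c * δ / 120 ≤ c / 2 := by nlinarith
  refine ⟨?_, ?_, ?_⟩
  · intro k hk
    have hk2 : 2 * (k : ℝ) ≤ n := by exact_mod_cast hk
    have hkn : k ≤ n := by omega
    rw [gs_eq hθ0 hθ, norm_div, le_div_iff₀ (norm_pos_iff.2 hθ0)]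
    have h3 := hkey k hkn
    have h4 := w_low hθ k
    set w : ℂ := -((k : ℂ) * Complex.log (1 - x / n)) with hw
    have h5 : ‖w‖ ≤ 6 := by
      have h6 : ‖w‖ ≤ ‖(k : ℂ) * (x / n)‖ + ‖w - k * (x / n)‖ := by
        have := norm_add_le ((k : ℂ) * (x / n)) (w - k * (x / n))
        simpa using this
      rw [norm_mul, Complex.norm_natCast, hθn] at h6
      have h7 : (k : ℝ) * (‖x‖ / n) ≤ ‖x‖ / 2 := by
        rw [mul_div_assoc', div_le_div_iff₀ hn0 (by norm_num)]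
        nlinarith [norm_nonneg x]
      linarith
    have h6 := hlow w h5
    have h8 : (0 : ℝ) ≤ k * ‖x / n‖ := by positivity
    calc c * δ / 120 * k * ‖x / n‖ = c * δ / 120 * (k * ‖x / n‖) := by ring
      _ ≤ c / 2 * (k * ‖x / n‖) := mul_le_mul_of_nonneg_right hδ2 h8
      _ = c * (k * ‖x / n‖ / 2) := by ring
      _ ≤ c * ‖w‖ := mul_le_mul_of_nonneg_left h4 hc.le
      _ ≤ _ := h6
  · intro k hk hkn hC
    have hk2 : (n : ℝ) ≤ 2 * k := by exact_mod_cast hk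
    have hkn2 : (k : ℝ) ≤ n := by exact_mod_cast hkn
    set ξ : ℝ := ‖x - ((2 * Real.pi + δ : ℝ) : ℂ) * I‖ with hξ
    have hξ0 : 0 ≤ ξ := norm_nonneg _
    have hξre : (x - ((2 * Real.pi + δ : ℝ) : ℂ) * I).re = x.re := by simp
    have hξim : (x - ((2 * Real.pi + δ : ℝ) : ℂ) * I).im = x.im - 2 * Real.pi - δ := by
      simp; ring
    have hξle : ξ ≤ |x.re| + |x.im - 2 * Real.pi - δ| := by
      have := norm_le_reim (x - ((2 * Real.pi + δ : ℝ) : ℂ) * I)
      rw [hξre, hξim] at this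
      exact this
    rw [gs_eq hθ0 hθ, norm_div, le_div_iff₀ (norm_pos_iff.2 hθ0)]
    have h3 := hkey k hkn
    set w : ℂ := -((k : ℂ) * Complex.log (1 - x / n)) with hw
    set t : ℝ := k / n with ht
    have ht1 : t ≤ 1 := by rw [ht, div_le_one hn0]; exact hkn2
    have ht2 : 1 / 2 ≤ t := by
      rw [ht, div_le_div_iff₀ (by norm_num) hn0]; linarith
    have e1 : (k : ℂ) * (x / n) = (t : ℂ) * x := by
      rw [ht]; push_cast; field_simp
    rw [e1] at h3
    -- real and imaginary parts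
    have hre2 : ((t : ℂ) * x - 2 * Real.pi * I).re = t * x.re := by simp
    have him2 : ((t : ℂ) * x - 2 * Real.pi * I).im = t * x.im - 2 * Real.pi := by simp
    have hup : ‖(t : ℂ) * x - 2 * Real.pi * I‖ ≤ 2 + Real.pi := by
      refine (norm_le_reim _).trans ?_
      rw [hre2, him2, abs_mul, abs_of_nonneg (by linarith : (0 : ℝ) ≤ t)]
      have h4 : t * |x.re| ≤ 1 :=
        (mul_le_of_le_one_left (abs_nonneg _) ht1).trans (hre.trans hδ1.le)
      have hx0' : 0 ≤ x.im := by linarith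
      have h5a : t * x.im ≤ x.im := mul_le_of_le_one_left hx0' ht1
      have h5b : 1 / 2 * x.im ≤ t * x.im := mul_le_mul_of_nonneg_right ht2 hx0'
      have h5 : |t * x.im - 2 * Real.pi| ≤ 1 + Real.pi := by
        rw [abs_le]
        constructor <;> linarith
      linarith
    have hlo : ξ / 6 ≤ ‖(t : ℂ) * x - 2 * Real.pi * I‖ := by
      have hA := Complex.abs_re_le_norm ((t : ℂ) * x - 2 * Real.pi * I)
      have hB := Complex.abs_im_le_norm ((t : ℂ) * x - 2 * Real.pi * I)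
      rw [hre2, abs_mul, abs_of_nonneg (by linarith : (0 : ℝ) ≤ t)] at hA
      rw [him2] at hB
      rcases hor with h | h
      · have h4 : |x.im - 2 * Real.pi - δ| ≤ 2 * δ := by
          rw [abs_le]; constructor <;> linarith
        rw [h] at hA hξle
        have h11 : 1 / 2 * δ ≤ t * δ := mul_le_mul_of_nonneg_right ht2 hδ.le
        linarith
      · rcases abs_eq hδ.le |>.1 h with h5 | h5
        · have h6 : |x.im - 2 * Real.pi - δ| = 0 := by rw [h5]; simp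
          rw [h6, add_zero] at hξle
          have h11 : 1 / 2 * |x.re| ≤ t * |x.re| := mul_le_mul_of_nonneg_right ht2 (abs_nonneg _)
          have h12 := abs_nonneg x.re
          linarith
        · have h6 : |x.im - 2 * Real.pi - δ| ≤ 2 * δ := by
            rw [h5, abs_le]; constructor <;> linarith
          have h7 : -(t * x.im - 2 * Real.pi) ≤ |t * x.im - 2 * Real.pi| := neg_le_abs _
          have h8 : x.im = 2 * Real.pi - δ := by linarith
          have h9 : δ / 2 ≤ -(t * x.im - 2 * Real.pi) := by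
            rw [h8]
            have h10 : t * (2 * Real.pi) ≤ 2 * Real.pi := mul_le_of_le_one_left (by linarith) ht1
            have h11 : 1 / 2 * δ ≤ t * δ := mul_le_mul_of_nonneg_right ht2 hδ.le
            linarith
          linarith
    have h81' : 81 / (n : ℝ) ≤ ξ / 12 := by
      rw [div_le_iff₀ hn0]; linarith
    set v : ℂ := w - 2 * Real.pi * I with hv
    have ev : v = (w - t * x) + (t * x - 2 * Real.pi * I) := by rw [hv]; ring
    have hv6 : ‖v‖ ≤ 6 := by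
      rw [ev]
      refine (norm_add_le _ _).trans ?_
      linarith
    have hvlo : ξ / 12 ≤ ‖v‖ := by
      have h4 : ‖(t : ℂ) * x - 2 * Real.pi * I‖ ≤ ‖v‖ + ‖w - t * x‖ := by
        have e2 : (t : ℂ) * x - 2 * Real.pi * I = v - (w - t * x) := by rw [hv]; ring
        rw [e2]
        exact norm_sub_le _ _
      linarith
    have h6 := hlow v hv6
    rw [exp_shift w]
    have h7 : c * δ / 120 * n * ξ * ‖x / n‖ = c * δ / 120 * ξ * ‖x‖ := by
      rw [hθn]; field_simp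
    rw [h7]
    have h8 : c * δ / 120 * ξ * ‖x‖ ≤ c * (ξ / 12) := by
      have h9 : δ * ‖x‖ ≤ 10 := by nlinarith [norm_nonneg x]
      have h10 : 0 ≤ c * ξ := by positivity
      nlinarith
    exact h8.trans ((mul_le_mul_of_nonneg_left hvlo hc.le).trans h6)
  · rw [gs_eq hθ0 hθ, norm_div, le_div_iff₀ (norm_pos_iff.2 hθ0)]
    have h3 := hkey n le_rfl
    have e3 : (n : ℂ) * (x / n) = x := by field_simp
    rw [e3] at h3
    set w : ℂ := -((n : ℂ) * Complex.log (1 - x / n)) with hw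
    have hre2 : (x - 2 * Real.pi * I).re = x.re := by simp
    have him2 : (x - 2 * Real.pi * I).im = x.im - 2 * Real.pi := by simp
    have hup : ‖x - 2 * Real.pi * I‖ ≤ 2 := by
      refine (norm_le_reim _).trans ?_
      rw [hre2, him2]
      linarith
    have hlo : δ ≤ ‖x - 2 * Real.pi * I‖ := by
      have hA := Complex.abs_re_le_norm (x - 2 * Real.pi * I)
      have hB := Complex.abs_im_le_norm (x - 2 * Real.pi * I)
      rw [hre2] at hA
      rw [him2] at hB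
      rcases hor with h | h
      · linarith
      · linarith
    set v : ℂ := w - 2 * Real.pi * I with hv
    have ev : v = (w - x) + (x - 2 * Real.pi * I) := by rw [hv]; ring
    have hv6 : ‖v‖ ≤ 6 := by
      rw [ev]
      refine (norm_add_le _ _).trans ?_
      linarith
    have hvlo : δ / 2 ≤ ‖v‖ := by
      have h4 : ‖x - 2 * Real.pi * I‖ ≤ ‖v‖ + ‖w - x‖ := by
        have e2 : x - 2 * Real.pi * I = v - (w - x) := by rw [hv]; ring
        rw [e2]
        exact norm_sub_le _ _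
      linarith
    have h6 := hlow v hv6
    rw [exp_shift w]
    have h7 : c * δ / 120 * n * ‖x / n‖ = c * δ / 120 * ‖x‖ := by
      rw [hθn]; field_simp
    rw [h7]
    have h8 : c * δ / 120 * ‖x‖ ≤ c * (δ / 2) := by
      have h10 : 0 ≤ c * δ := by positivity
      nlinarith
    exact h8.trans ((mul_le_mul_of_nonneg_left hvlo hc.le).trans h6)

end Pool.Agent.Y458.PC
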