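import Pool.Agent.Y811.PC.Stm
import Pool.Agent.Y458.PC.Geom

set_option autoImplicit false

/-!
# PC-GEOM, PC-GEOM2, PC-GEOM3 (helper458, for project PC of helper811)
-/

namespace Pool.Agent.Y458.PC

open Complex Metric Set Filter Topology Pool.Agent.Y811.PC

theorem t_GEOM : S_GEOM := geom

theorem t_GEOM3 : S_GEOM3 := geom3

theorem t_GEOM2 : S_GEOM2 := by
  intro δ hδ hδ1
  obtain ⟨c₁, C₁, n₁, hc, hC, h⟩ := geom2 δ hδ hδ1
  refine ⟨c₁, C₁, n₁, hc, hC, fun n hn x hx => ?_⟩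
  exact h n hn x hx.1 hx.2.1 hx.2.2

end Pool.Agent.Y458.PC
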